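import Pool.Agent.helper80.RN.Nonab

/-!
# Doubling (C5 of CPT, MP_3c1c82)
-/

namespace Pool.Agent.helper90.CPT

open Pool.Agent.helper80.RSV Pool.Agent.helper7.RC Pool.Agent.helper80.RN Filter

variable {G : Type} [Group G] {a : G}

/-- sequences whose terms are in `Ncl m (u n)` for one `m`, almost everywhere -/
def MU (U : Ultrafilter ℕ) (u : ℕ → G) : Subgroup (ℕ → G) where
  carrier := {f | ∃ m, ∀ᶠ n in (U : Filter ℕ), f n ∈ Ncl m (u n)}
  one_mem' := ⟨0, Eventually.of_forall fun n => one_mem_Ncl _ _⟩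
  mul_mem' := by
    rintro f g ⟨k, hf⟩ ⟨l, hg⟩
    refine ⟨k + l, ?_⟩
    filter_upwards [hf, hg] with n h1 h2
    exact Ncl_mul h1 h2
  inv_mem' := by
    rintro f ⟨k, hf⟩
    refine ⟨k, ?_⟩
    filter_upwards [hf] with n h1
    exact Ncl_inv h1

theorem MU_normal (U : Ultrafilter ℕ) (u : ℕ → G) : (MU U u).Normal := by
  refine ⟨?_⟩
  rintro f ⟨k, hf⟩ g
  refine ⟨k, ?_⟩
  filter_upwards [hf] with n h1
  exact Ncl_conj h1 (g n)

theorem not_mem_MU {u : ℕ → G} (h : ∀ n, a ∉ Ncl n (u n)) : (fun _ => a : ℕ → G) ∉ MU (hyperfilter ℕ) u := by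
  rintro ⟨m, hm⟩
  have h1 : ∀ᶠ n in (hyperfilter ℕ : Filter ℕ), m ≤ n :=
    (eventually_ge_atTop m).filter_mono Nat.hyperfilter_le_atTop
  obtain ⟨n, hn, hn'⟩ := (hm.and h1).exists
  exact h n (Ncl_mono hn' hn)

theorem comm_mem_MU (U : Ultrafilter ℕ) (u g : ℕ → G) : u⁻¹ * (g * u * g⁻¹) ∈ MU U u :=
  ⟨1, Eventually.of_forall fun n => Kc_sub_Ncl_one ⟨g n, 1, by simp⟩⟩

theorem Kc_pi {u q : ℕ → G} (h : ∀ n, q n ∈ Kc (u n)) : q ∈ Kc u := by
  choose g k hk using h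
  exact ⟨g, k, funext hk⟩

theorem Ncl_pi {k : ℕ} {u q : ℕ → G} (h : ∀ n, q n ∈ Ncl k (u n)) : q ∈ Ncl k u := by
  induction k generalizing q with
  | zero => exact funext h
  | succ k ih =>
    choose y hy z hz hq using h
    exact ⟨y, Kc_pi hy, z, ih hz, funext hq⟩

/-- the pull-back of an eventual membership -/
theorem pull {U : Ultrafilter ℕ} {u : ℕ → G} {M : Subgroup (ℕ → G)} (hM : M.Normal) (hMU : MU U u ≤ M)
    {w : ℕ → G} (hw : w ∈ M) {k : ℕ} (h : ∀ᶠ n in (U : Filter ℕ), a ∈ Ncl k (w n)) :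
    (fun _ => a : ℕ → G) ∈ M := by
  classical
  let a' : ℕ → G := fun n => if a ∈ Ncl k (w n) then a else 1
  have h1 : a' ∈ M := by
    refine Ncl_sub_normal hM hw (n := k) (Ncl_pi fun n => ?_)
    show (if a ∈ Ncl k (w n) then a else 1) ∈ Ncl k (w n)
    split_ifs with hh
    · exact hh
    · exact one_mem_Ncl _ _
  have h2 : a'⁻¹ * (fun _ => a) ∈ M := by
    apply hMU
    refine ⟨0, ?_⟩
    filter_upwards [h] with n hn
    show (if a ∈ Ncl k (w n) then a else 1)⁻¹ * a = 1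
    rw [if_pos hn, inv_mul_cancel]
  have h3 := M.mul_mem h1 h2
  rwa [mul_inv_cancel_left] at h3

/-- elements which are central modulo a maximal `M` avoiding `a` are in `M` -/
theorem mem_of_central (hn : NonabSI G) (ha : ASI a) {M : Subgroup (ℕ → G)} (hM : M.Normal)
    (haM : (fun _ => a : ℕ → G) ∉ M)
    (hmax : ∀ K : Subgroup (ℕ → G), K.Normal → M ≤ K → M ≠ K → (fun _ => a : ℕ → G) ∈ K) {u : ℕ → G}
    (hu : ∀ g : ℕ → G, u⁻¹ * (g * u * g⁻¹) ∈ M) : u ∈ M := by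
  by_contra huM
  obtain ⟨A, hA, hAn⟩ := hn
  have := hM
  let K : Subgroup (ℕ → G) := (Subgroup.center ((ℕ → G) ⧸ M)).comap (QuotientGroup.mk' M)
  have hK : K.Normal := inferInstance
  have hMK : M ≤ K := by
    intro x hx
    rw [Subgroup.mem_comap]
    have : (QuotientGroup.mk' M) x = 1 := (QuotientGroup.eq_one_iff x).mpr hx
    rw [this]
    exact Subgroup.one_mem _
  have huK : u ∈ K := by
    rw [Subgroup.mem_comap, Subgroup.mem_center_iff]
    intro g
    obtain ⟨g, rfl⟩ := QuotientGroup.mk'_surjective M g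
    rw [← map_mul, ← map_mul]
    apply QuotientGroup.eq.mpr
    have h1 := hM.conj_mem _ (M.inv_mem (hu g)) g⁻¹
    have h2 : (g * u)⁻¹ * (u * g) = g⁻¹ * (u⁻¹ * (g * u * g⁻¹))⁻¹ * g⁻¹⁻¹ := by group
    rw [h2]
    exact h1
  have haK : (fun _ => a : ℕ → G) ∈ K := hmax K hK hMK (fun h => huM (h ▸ huK))
  let j : G →* (ℕ → G) := MonoidHom.mk' (fun x _ => x) (fun _ _ => rfl)
  let φ : G →* (ℕ → G) ⧸ M := (QuotientGroup.mk' M).comp j
  have hker : φ.ker = ⊥ := by
    by_contra hne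
    have h1 := ha.2 φ.ker inferInstance hne
    exact haM ((QuotientGroup.eq_one_iff (j a)).mp h1)
  have hinj : Function.Injective φ := (MonoidHom.ker_eq_bot_iff φ).mp hker
  have hZ : A ≤ (Subgroup.center ((ℕ → G) ⧸ M)).comap φ := by
    apply hA.2.2 _ inferInstance
    intro hbot
    have h1 : a ∈ (Subgroup.center ((ℕ → G) ⧸ M)).comap φ := haK
    rw [hbot, Subgroup.mem_bot] at h1
    exact ha.1 h1
  apply hAn
  intro x hx y _
  apply hinj
  rw [map_mul, map_mul]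
  have h1 : φ x ∈ Subgroup.center ((ℕ → G) ⧸ M) := hZ hx
  exact (Subgroup.mem_center_iff.mp h1 (φ y)).symm

theorem doubling (hn : NonabSI G) (ha : ASI a) {k₀ : ℕ} (h5 : ∀ y : G, a ∈ Ncl k₀ y ∨ a ∈ Ncl k₀ (y⁻¹ * a)) :
    ∀ k, ∃ l, ∀ u v : G, a ∉ Ncl l u → a ∉ Ncl l v → a ∉ Ncl k (u * v) := by
  intro k
  by_contra hcon
  push Not at hcon
  choose u v hu hv huv using hcon
  obtain ⟨M, hM, hMU, haM, hmax⟩ := exists_max_avoid (MU_normal (hyperfilter ℕ) u) (not_mem_MU hu)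
  have huM : u ∈ M := mem_of_central hn ha hM haM hmax fun g => hMU (comm_mem_MU _ u g)
  obtain ⟨M', hM', hMU', haM', hmax'⟩ := exists_max_avoid (MU_normal (hyperfilter ℕ) v) (not_mem_MU hv)
  have hvM' : v ∈ M' := mem_of_central hn ha hM' haM' hmax' fun g => hMU' (comm_mem_MU _ v g)
  have hvM : v ∈ M := by
    by_contra hvM
    have h1 : (fun _ => a : ℕ → G) ∈ M ⊔ Subgroup.normalClosure {v} := by
      have hnorm : (M ⊔ Subgroup.normalClosure {v}).Normal := inferInstance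
      apply hmax _ hnorm le_sup_left
      intro h
      apply hvM
      rw [h]
      exact (le_sup_right : Subgroup.normalClosure {v} ≤ M ⊔ _) (Subgroup.subset_normalClosure rfl)
    obtain ⟨m, hm, c, hc, hmc⟩ := (Subgroup.mem_sup_of_normal_left).mp h1
    have hcM' : c ∈ M' := by
      have h2 : Subgroup.normalClosure {v} ≤ M' := Subgroup.normalClosure_le_normal (by
        rintro x rfl
        exact hvM')
      exact h2 hc
    -- write `a = c n`
    have hn' : c⁻¹ * (fun _ => a) ∈ M := by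
      have h2 := hM.conj_mem m hm c⁻¹
      have h3 : c⁻¹ * (fun _ => a) = c⁻¹ * m * c⁻¹⁻¹ := by
        rw [← hmc]; group
      rw [h3]
      exact h2
    have h2 : ∀ᶠ n in (hyperfilter ℕ : Filter ℕ), a ∈ Ncl k₀ (c n) ∨ a ∈ Ncl k₀ ((c n)⁻¹ * a) :=
      Eventually.of_forall fun n => h5 (c n)
    rcases Ultrafilter.eventually_or.mp h2 with h3 | h3
    · exact haM' (pull hM' hMU' hcM' h3)
    · exact haM (pull hM hMU hn' h3)
  exact haM (pull hM hMU (M.mul_mem huM hvM) (k := k) (Eventually.of_forall huv))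

end Pool.Agent.helper90.CPT
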